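import Mathlib

/-!
Unit vectors of bounded range on a cubic multigraph, with the correlations of the Gaussian wave on
the cubic tree.
-/

set_option autoImplicit false

namespace Pool.Agent.MP_de21d3_co.H60

open Real Finset Function
open scoped RealInnerProductSpace

variable {Q : Type} [DecidableEq Q] (ρ : Q × Fin 3 → Q × Fin 3)

/-- Balls. -/
def bl : ℕ → Q → Finset Q
  | 0, v => {v}
  | r + 1, v => bl r v ∪ univ.biUnion fun i => bl r (ρ (v, i)).1

/-- Total mass of the nonbacktracking random walks of length less than `R` behind a dart. -/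
noncomputable def ms : ℕ → Q × Fin 3 → Q → ℝ
  | 0, _, _ => 0
  | R + 1, d, y => (if y = (ρ d).1 then 1 else 0) +
      (ms R ((ρ d).1, (ρ d).2 + 1) y + ms R ((ρ d).1, (ρ d).2 + 2) y) / 2

variable {ρ}

lemma bl_card (r : ℕ) (v : Q) : #(bl ρ r v) ≤ 4 ^ r := by
  induction r generalizing v with
  | zero => simp [bl]
  | succ r ih =>
    have := card_biUnion_le_card_mul univ (fun i => bl ρ r (ρ (v, i)).1) _ fun i _ => ih _
    have := card_union_le (bl ρ r v) (univ.biUnion fun i => bl ρ r (ρ (v, i)).1)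
    have := ih v
    simp only [card_univ, Fintype.card_fin, bl] at *
    omega

lemma bl_add {r s : ℕ} {x y z : Q} (h : y ∈ bl ρ r x) (h' : z ∈ bl ρ s y) :
    z ∈ bl ρ (s + r) x := by
  induction r generalizing x with
  | zero => exact mem_singleton.1 h ▸ h'
  | succ r ih =>
    rcases mem_union.1 h with h | h
    · exact mem_union_left _ (ih h)
    · obtain ⟨i, -, h⟩ := mem_biUnion.1 h
      exact mem_union_right _ (mem_biUnion.2 ⟨i, mem_univ _, ih h⟩)

lemma bl_self (v : Q) : v ∈ bl ρ 1 v := mem_union_left _ (mem_singleton_self v)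

lemma bl_nb (v : Q) (i : Fin 3) : (ρ (v, i)).1 ∈ bl ρ 1 v :=
  mem_union_right _ (mem_biUnion.2 ⟨i, mem_univ _, mem_singleton_self _⟩)

lemma bl_symm (hρ : Involutive ρ) {r : ℕ} {x y : Q} (h : y ∈ bl ρ r x) : x ∈ bl ρ r y := by
  induction r generalizing x with
  | zero => exact mem_singleton.2 (mem_singleton.1 h).symm
  | succ r ih =>
    rw [add_comm]
    rcases mem_union.1 h with h | h
    · exact bl_add (ih h) (bl_self x)
    · obtain ⟨i, -, h⟩ := mem_biUnion.1 h
      have := bl_nb (ρ := ρ) (ρ (x, i)).1 (ρ (x, i)).2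
      rw [Prod.mk.eta, hρ] at this
      exact bl_add (ih h) this

lemma ms_nn (R : ℕ) (d : Q × Fin 3) (y : Q) : 0 ≤ ms ρ R d y := by
  induction R generalizing d with
  | zero => exact le_rfl
  | succ R ih =>
    have := ih ((ρ d).1, (ρ d).2 + 1)
    have := ih ((ρ d).1, (ρ d).2 + 2)
    rw [ms]
    positivity

lemma ms_mono (R : ℕ) (d : Q × Fin 3) (y : Q) : ms ρ R d y ≤ ms ρ (R + 1) d y := by
  induction R generalizing d with
  | zero => exact ms_nn _ _ _
  | succ R ih =>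
    rw [ms, ms]
    linarith [ih ((ρ d).1, (ρ d).2 + 1), ih ((ρ d).1, (ρ d).2 + 2)]

lemma ms_supp {R : ℕ} {d : Q × Fin 3} {y : Q} (h : y ∉ bl ρ R d.1) : ms ρ R d y = 0 := by
  induction R generalizing d with
  | zero => rfl
  | succ R ih =>
    have h1 : y ∉ bl ρ R (ρ d).1 := fun e => h (bl_add (bl_nb d.1 d.2) e)
    have h2 : ∀ R v, v ∈ bl ρ R v := fun R v => by
      induction R with
      | zero => exact mem_singleton_self v
      | succ R ih => exact mem_union_left _ ih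
    rw [ms, ih (d := (_, (ρ d).2 + 1)) h1, ih (d := (_, (ρ d).2 + 2)) h1,
      if_neg fun e : y = _ => h1 (e ▸ h2 _ _)]
    simp

variable [Fintype Q]

lemma ms_sum (R : ℕ) (d : Q × Fin 3) : ∑ y, ms ρ R d y = R := by
  induction R generalizing d with
  | zero => simp [ms]
  | succ R ih => simp [ms, sum_add_distrib, ← sum_div, ih, add_comm]

theorem wave : ∃ r : ℕ, ∀ (Q : Type) [DecidableEq Q] [Fintype Q] (ρ : Q × Fin 3 → Q × Fin 3),
    Involutive ρ → ∃ a : Q → EuclideanSpace ℝ Q, (∀ v, ‖a v‖ = 1) ∧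
      (∀ d, 0.942 ≤ ⟪a d.1, a (ρ d).1⟫) ∧
      (∀ v i, 0.833 ≤ ⟪a (ρ (v, i + 1)).1, a (ρ (v, i + 2)).1⟫) ∧
      ∀ u v, v ∉ bl ρ r u → ⟪a u, a v⟫ = 0 := by
  obtain ⟨R, hR⟩ : ∃ R : ℕ, (R : ℝ) = 9998 := ⟨9998, by norm_num⟩
  refine ⟨R + 2 + (R + 2), fun Q _ _ ρ hρ => ?_⟩
  let m : Q → Q → ℝ := fun v y => ∑ i, ms ρ (R + 2) (v, i) y
  have m0 : ∀ v y, 0 ≤ m v y := fun v y => sum_nonneg fun _ _ => ms_nn _ _ _
  let a : Q → EuclideanSpace ℝ Q := fun v => WithLp.toLp 2 fun y => √(m v y / 30000)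
  have ha : ∀ u v, ⟪a u, a v⟫ = (∑ y, √(m u y * m v y)) / 30000 := fun u v => by
    rw [PiLp.inner_apply, sum_div]
    refine sum_congr rfl fun y _ => ?_
    simp only [a, RCLike.inner_apply, conj_trivial]
    rw [← sqrt_mul (div_nonneg (m0 _ _) (by norm_num)), div_mul_div_comm, sqrt_div' _ (by norm_num),
      sqrt_mul_self (by norm_num), mul_comm]
  let S : Q × Fin 3 → Q → ℝ := fun d y =>
    (ms ρ R ((ρ d).1, (ρ d).2 + 1) y + ms ρ R ((ρ d).1, (ρ d).2 + 2) y) / 2
  have S0 : ∀ d y, 0 ≤ S d y := fun d y => div_nonneg (add_nonneg (ms_nn _ _ _) (ms_nn _ _ _))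
    zero_le_two
  have S1 : ∀ d y, S d y ≤ ms ρ (R + 1) d y := fun d y => le_add_of_nonneg_left (by positivity)
  have S2 : ∀ d, ∑ y, S d y = 9998 := fun d => by
    simp [S, sum_add_distrib, ← sum_div, ms_sum, hR]
  have m1 : ∀ v i y, m v y = ms ρ (R + 2) (v, i) y + ms ρ (R + 2) (v, i + 1) y +
      ms ρ (R + 2) (v, i + 2) y := fun v i y => by
    simp only [m, Fin.sum_univ_three]
    fin_cases i <;> simp <;> ring
  have m2 : ∀ d y, ms ρ (R + 2) (ρ d) y + 2 * S d y ≤ m (ρ d).1 y := fun d y => by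
    rw [m1 _ (ρ d).2]
    simp only [S]
    linarith [ms_mono (ρ := ρ) R ((ρ d).1, (ρ d).2 + 1) y, ms_mono (ρ := ρ) R ((ρ d).1, (ρ d).2 + 2) y,
      ms_mono (ρ := ρ) (R + 1) ((ρ d).1, (ρ d).2 + 1) y,
      ms_mono (ρ := ρ) (R + 1) ((ρ d).1, (ρ d).2 + 2) y]
  have m3 : ∀ v i y, (S (v, i + 1) y + S (v, i + 2) y) / 2 + 2 * S (v, i) y ≤ m (ρ (v, i)).1 y :=
    fun v i y => by
      have := m2 (v, i) y
      rw [ms, hρ] at this
      have h : (0 : ℝ) ≤ if y = (v, i).1 then 1 else 0 := by positivity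
      linarith [S1 (v, i + 1) y, S1 (v, i + 2) y]
  refine ⟨a, fun v => ?_, fun d => ?_, fun v i => ?_, fun u v h => ?_⟩
  · rw [← sq_eq_sq₀ (norm_nonneg _) zero_le_one, ← real_inner_self_eq_norm_sq, ha]
    simp only [sqrt_mul_self (m0 _ _), m]
    rw [sum_comm]
    simp only [ms_sum]
    simp [hR]
    norm_num
  · rw [ha, le_div_iff₀ (by norm_num)]
    refine le_trans ?_ (sum_le_sum (f := fun y => 1.4142 * (S d y + S (ρ d) y)) fun y _ =>
      le_sqrt_of_sq_le ?_)
    · rw [← mul_sum, sum_add_distrib, S2, S2]; norm_num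
    · have h1 := m2 d y
      have h2 := m2 (ρ d) y
      rw [hρ] at h2
      have h3 := (S1 d y).trans (ms_mono _ _ _)
      have h4 := (S1 (ρ d) y).trans (ms_mono _ _ _)
      have h5 := S0 d y
      have h6 := S0 (ρ d) y
      refine le_trans ?_ (mul_le_mul (a := S d y + 2 * S (ρ d) y) (c := S (ρ d) y + 2 * S d y)
        (by linarith) (by linarith) (by positivity) (m0 _ _))
      nlinarith [mul_nonneg h5 h6, sq_nonneg (S d y), sq_nonneg (S (ρ d) y)]
  · rw [ha, le_div_iff₀ (by norm_num)]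
    refine le_trans ?_ (sum_le_sum (f := fun y => S (v, i + 1) y + S (v, i + 2) y + S (v, i) y / 2)
      fun y _ => le_sqrt_of_sq_le ?_)
    · rw [sum_add_distrib, sum_add_distrib, S2, S2, ← sum_div, S2]; norm_num
    · have h1 := m3 v (i + 1) y
      have h2 := m3 v (i + 2) y
      rw [show i + 1 + 1 = i + 2 by omega, show i + 1 + 2 = i by omega] at h1
      rw [show i + 2 + 1 = i by omega, show i + 2 + 2 = i + 1 by omega] at h2
      have h4 := S0 (v, i) y
      have h5 := S0 (v, i + 1) y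
      have h6 := S0 (v, i + 2) y
      refine le_trans ?_ (mul_le_mul h1 h2 (by positivity) (m0 _ _))
      nlinarith [mul_nonneg h5 h6, mul_nonneg h4 h5, mul_nonneg h4 h6]
  · rw [ha, sum_eq_zero fun y _ => ?_, zero_div]
    by_cases hy : y ∈ bl ρ (R + 2) u
    · have : y ∉ bl ρ (R + 2) v := fun e => h (bl_add hy (bl_symm hρ e))
      simp [m, ms_supp (d := (v, _)) this]
    · simp [m, ms_supp (d := (u, _)) hy]

end Pool.Agent.MP_de21d3_co.H60
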