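import Pool.Agent.MP_de21d3_co.H60.Gauss
import Pool.Agent.MP_de21d3_co.H60.Wave

/-!
Every cubic multigraph on `n` vertices has cutwidth at most `0.1525 n + O(1)`.
-/

set_option autoImplicit false

namespace Pool.Agent.MP_de21d3_co.H60

open Real Finset Function MeasureTheory ProbabilityTheory
open scoped RealInnerProductSpace

variable {Q : Type} [DecidableEq Q] [Fintype Q] (ρ : Q × Fin 3 → Q × Fin 3)

/-- The darts leaving `K`. -/
def out (K : Finset Q) : Finset (Q × Fin 3) := {d | d.1 ∈ K ∧ (ρ d).1 ∉ K}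

/-- `K` can be swept, four vertices at a time, with cuts of size at most `w`. -/
inductive Sw (w : ℕ) : Finset Q → Prop
  | nil : Sw w ∅
  | step (K K' : Finset Q) : K' ⊆ K → #(K \ K') ≤ 4 → #(out ρ K) ≤ w → Sw w K' → Sw w K

/-- The vertices of `I` follow the majority of their neighbours. -/
def maj (I A : Finset Q) : Finset Q :=
  {v | if v ∈ I then 2 ≤ #{i | (ρ (v, i)).1 ∈ A} else v ∈ A}

/-- The pair of vertices attached to a dart. -/
def pr (I : Finset Q) (d : Q × Fin 3) (b : Bool) : Q :=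
  if d.1 ∈ I then (ρ (d.1, d.2 + if b then 1 else 2)).1 else if b then d.1 else (ρ d).1

variable {ρ}

lemma indep (hρ : Involutive ρ) (hl : ∀ d, (ρ d).1 ≠ d.1)
    (hc : ∀ K : Finset Q, K.Nonempty → K ≠ univ → ∃ d : Q × Fin 3, d.1 ∈ K ∧ (ρ d).1 ∉ K)
    (K : Finset Q) (hK : K ≠ univ) :
    ∃ I ⊆ K, #K ≤ 3 * #I ∧ ∀ d : Q × Fin 3, d.1 ∈ I → (ρ d).1 ∉ I := by
  induction K using Finset.strongInduction with
  | H K ih =>
    rcases K.eq_empty_or_nonempty with rfl | h
    · exact ⟨∅, Subset.rfl, by simp, by simp⟩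
    obtain ⟨⟨v, i⟩, h1, h2⟩ := hc K h hK
    let T : Finset Q := {v, (ρ (v, i + 1)).1, (ρ (v, i + 2)).1}
    have s1 : K \ T ⊂ K := (ssubset_iff_of_subset sdiff_subset).2 ⟨v, h1, by simp [T]⟩
    obtain ⟨I, a1, a2, a3⟩ := ih (K \ T) s1 fun e => hK (univ_subset_iff.1 (e ▸ s1.subset))
    have a4 : ∀ j, (ρ (v, j)).1 ∉ I := fun j e => by
      have := mem_sdiff.1 (a1 e)
      rcases (by omega : j = i ∨ j = i + 1 ∨ j = i + 2) with rfl | rfl | rfl
      · exact h2 this.1
      all_goals simp [T] at this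
    have a5 : v ∉ I := fun e => by simpa [T] using a1 e
    refine ⟨insert v I, insert_subset h1 (a1.trans sdiff_subset), ?_, fun d h3 h4 => ?_⟩
    · have := le_card_sdiff T K
      have : #T ≤ 3 := card_le_three
      rw [card_insert_of_notMem a5]
      omega
    · rcases mem_insert.1 h3 with h3 | h3 <;> rcases mem_insert.1 h4 with h4 | h4
      · exact hl d (h4.trans h3.symm)
      · exact a4 d.2 (h3 ▸ h4)
      · exact a4 (ρ d).2 (by rwa [← h4, Prod.mk.eta, hρ])
      · exact a3 d h3 h4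

lemma out_maj (hρ : Involutive ρ) {I : Finset Q} (hI : ∀ d : Q × Fin 3, d.1 ∈ I → (ρ d).1 ∉ I)
    (A : Finset Q) : 2 * #(out ρ (maj ρ I A)) ≤ ∑ d, if (d.1 ∈ I ∨ (ρ d).1 ∉ I) ∧
      ¬(pr ρ I d true ∈ A ↔ pr ρ I d false ∈ A) then 1 else 0 := by
  set K := maj ρ I A
  have hK : ∀ v ∉ I, v ∈ K ↔ v ∈ A := fun v hv => by simp [K, maj, hv]
  let c : Q × Fin 3 → ℕ := fun d => if d.1 ∈ K ↔ (ρ d).1 ∈ K then 0 else 1
  let f : Q × Fin 3 → ℕ := fun d => if d.1 ∈ I then c d else 0
  let h : Q × Fin 3 → ℕ := fun d => if d.1 ∉ I ∧ (ρ d).1 ∉ I then c d else 0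
  have e : ∀ F : Q × Fin 3 → ℕ, ∑ d, F (ρ d) = ∑ d, F d := fun F => Equiv.sum_comp hρ.toPerm F
  have h1 : 2 * #(out ρ K) ≤ ∑ d, (2 * f d + h d) := by
    rw [out, card_filter, two_mul]
    nth_rw 1 [← e]
    simp only [two_mul, sum_add_distrib]
    nth_rw 1 [← e f]
    simp only [← sum_add_distrib]
    refine sum_le_sum fun d _ => ?_
    have := hI d
    simp only [f, h, c, hρ d]
    by_cases a : d.1 ∈ K <;> by_cases b : (ρ d).1 ∈ K <;> by_cases a' : d.1 ∈ I <;>
      by_cases b' : (ρ d).1 ∈ I <;> simp_all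
  refine h1.trans ?_
  rw [Fintype.sum_prod_type, Fintype.sum_prod_type]
  refine sum_le_sum fun v _ => ?_
  by_cases hv : v ∈ I
  · have h2 : v ∈ K ↔ 2 ≤ ∑ i, if (ρ (v, i)).1 ∈ A then 1 else 0 := by
      simp only [K, maj, mem_filter, mem_univ, true_and, if_pos hv, card_filter]
    simp only [f, h, c, pr, hv, hK _ (hI (v, _) hv), h2, Fin.sum_univ_three]
    by_cases a : (ρ (v, 0)).1 ∈ A <;> by_cases b : (ρ (v, 1)).1 ∈ A <;>
      by_cases a' : (ρ (v, 2)).1 ∈ A <;> simp [a, b, a']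
  · refine sum_le_sum fun i _ => ?_
    by_cases b : (ρ (v, i)).1 ∈ I
    · simp [f, h, hv, b]
    · simp [f, h, c, pr, hv, b, hK]

lemma sw_maj (hρ : Involutive ρ) (I : Finset Q) (X : Q → ℝ) {w : ℕ}
    (h : ∀ A : Finset Q, (∀ u ∈ A, ∀ v ∉ A, X v ≤ X u) → #(out ρ (maj ρ I A)) ≤ w) :
    Sw ρ w univ := by
  have key : ∀ A : Finset Q, (∀ u ∈ A, ∀ v ∉ A, X v ≤ X u) → Sw ρ w (maj ρ I A) := fun A => by
    induction A using Finset.strongInduction with
    | H A ih =>
      intro hA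
      rcases A.eq_empty_or_nonempty with rfl | hn
      · rw [show maj ρ I ∅ = ∅ by ext; simp [maj]]
        exact Sw.nil
      obtain ⟨u, u1, u2⟩ := exists_min_image A X hn
      refine Sw.step _ (maj ρ I (A.erase u)) (fun v => ?_) ?_ (h A hA)
        (ih _ (erase_ssubset u1) fun a ha v hv => ?_)
      · simp only [maj, mem_filter, mem_univ, true_and]
        split_ifs
        · exact fun e => e.trans (card_le_card (monotone_filter_right _ fun _ _ => mem_of_mem_erase))
        · exact mem_of_mem_erase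
      · refine (card_le_card (t := bl ρ 1 u) fun v hv => ?_).trans (bl_card 1 u)
        simp only [maj, mem_sdiff, mem_filter, mem_univ, true_and] at hv
        by_contra hu
        have h1 : ∀ i, (ρ (v, i)).1 ≠ u := fun i e => hu (bl_symm hρ (e ▸ bl_nb v i))
        have h2 : v ≠ u := fun e => hu (e ▸ bl_self v)
        simp [h1, h2] at hv
      · by_cases e : v = u
        · exact e ▸ u2 a (mem_of_mem_erase ha)
        · exact hA a (mem_of_mem_erase ha) v fun q => hv (mem_erase.2 ⟨e, q⟩)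
  convert key univ (by simp)
  ext
  simp [maj]

/-- The windows of thresholds. -/
def wd : Option (Fin 50001) → Set (Bool → ℝ)
  | none => {x | 5 ≤ |x true|} ∪ {x | 5 ≤ |x false|}
  | some j => {x | min (x true) (x false) ≤ (j / 5000 - 5) + 1 / 5000 ∧
      (j / 5000 - 5) - 1 / 5000 ≤ max (x true) (x false)}

lemma wd_meas (j : Option (Fin 50001)) : MeasurableSet (wd j) := by
  cases j
  · refine MeasurableSet.union ?_ ?_ <;> exact measurableSet_le measurable_const (by fun_prop)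
  · simp only [wd, Set.ofPred_and]
    refine MeasurableSet.inter ?_ ?_ <;> exact measurableSet_le (by fun_prop) (by fun_prop)

lemma wd_cover (θ : ℝ) : ∃ j, ∀ x : Bool → ℝ, min (x true) (x false) ≤ θ →
    θ ≤ max (x true) (x false) → x ∈ wd j := by
  by_cases h : 5 ≤ |θ|
  · refine ⟨none, fun x h1 h2 => ?_⟩
    simp only [wd, Set.mem_union, Set.mem_ofPred_eq, le_abs, min_le_iff, le_max_iff] at *
    rcases h with h | h
    · rcases h2 with h2 | h2
      · exact Or.inl (Or.inl (by linarith))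
      · exact Or.inr (Or.inl (by linarith))
    · rcases h1 with h1 | h1
      · exact Or.inl (Or.inr (by linarith))
      · exact Or.inr (Or.inr (by linarith))
  · rw [not_le, abs_lt] at h
    have h0 : 0 ≤ (θ + 5) * 5000 := by linarith [h.1]
    refine ⟨some ⟨⌊(θ + 5) * 5000⌋₊, (Nat.floor_lt h0).2 (by push_cast; linarith [h.2])⟩,
      fun x h1 h2 => ⟨?_, ?_⟩⟩
    · linarith [Nat.lt_floor_add_one ((θ + 5) * 5000)]
    · linarith [Nat.floor_le h0]

lemma wd_le {E : Type} [NormedAddCommGroup E] [InnerProductSpace ℝ E] [FiniteDimensional ℝ E]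
    [MeasurableSpace E] [BorelSpace E] (a : Bool → E) (ha : ∀ b, ‖a b‖ = 1) {τ : ℝ}
    (h0 : 0.173 ≤ τ) (h1 : τ ≤ 1) (h : 1 - τ ^ 2 ≤ (1 + τ ^ 2) * ⟪a true, a false⟫)
    (j : Option (Fin 50001)) :
    (stdGaussian E).real ((fun z b => ⟪a b, z⟫) ⁻¹' wd j) ≤ 0.6367 * τ + 0.0004 := by
  cases j with
  | none =>
    refine (measureReal_union_le _ _).trans ((add_le_add (tail_le (ha _)) (tail_le (ha _))).trans ?_)
    linarith
  | some j =>
    refine (sp_le (ha _) (ha _) (by linarith) h1 h _ (by norm_num)).trans (add_le_add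
      (mul_le_mul_of_nonneg_right ?_ (by linarith)) (by norm_num))
    rw [div_le_iff₀ pi_pos]
    linarith [pi_gt_d4]

theorem sweep : ∃ C : ℕ, ∀ (Q : Type) [DecidableEq Q] [Fintype Q] (ρ : Q × Fin 3 → Q × Fin 3),
    Involutive ρ → (∀ d, (ρ d).1 ≠ d.1) →
    (∀ K : Finset Q, K.Nonempty → K ≠ univ → ∃ d : Q × Fin 3, d.1 ∈ K ∧ (ρ d).1 ∉ K) →
    Sw ρ ((61 * Fintype.card Q + C) / 400) univ := by
  classical
  obtain ⟨r, hr⟩ := wave
  obtain ⟨Δ, hΔ⟩ : ∃ Δ, Δ = 4 ^ (1 + (r + 1)) * 3 := ⟨_, rfl⟩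
  refine ⟨1200 * (3000000 * (50002 * Δ)) + 200, fun Q _ _ ρ hρ hl hc => ?_⟩
  set n := Fintype.card Q with hn
  by_cases h0 : n ≤ 3000000 * (50002 * Δ)
  · refine sw_maj hρ ∅ 0 fun A _ => (card_le_univ _).trans ?_
    rw [Fintype.card_prod, Fintype.card_fin]
    omega
  obtain ⟨v0⟩ := Fintype.card_pos_iff.1 (by omega : 0 < n)
  obtain ⟨I, -, I1, I2⟩ := indep hρ hl hc (univ.erase v0) (erase_ssubset (mem_univ _)).ne
  rw [card_erase_of_mem (mem_univ _), card_univ] at I1
  obtain ⟨a, a1, a2, a3, a4⟩ := hr Q ρ hρ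
  let B : Option (Fin 50001) → Q × Fin 3 → Set (Bool → ℝ) := fun j d =>
    if d.1 ∈ I ∨ (ρ d).1 ∉ I then wd j else ∅
  have B1 : ∀ j d, MeasurableSet (B j d) := fun j d => by
    simp only [B]
    split_ifs
    exacts [wd_meas j, MeasurableSet.empty]
  have p1 : ∀ d b, pr ρ I d b ∈ bl ρ 1 d.1 := fun d b => by
    unfold pr
    split_ifs
    exacts [bl_nb _ _, bl_nb _ _, bl_self _, bl_nb _ _]
  have n0 : (0 : ℝ) < n := by exact_mod_cast (by omega : 0 < n)
  obtain ⟨z, hz⟩ := conc (μ := stdGaussian (EuclideanSpace ℝ Q))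
    (fun j d => (fun z b => ⟪a (pr ρ I d b), z⟫) ⁻¹' B j d)
    (fun j d => (B1 j d).preimage (by fun_prop)) (fun d => bl ρ (1 + (r + 1)) d.1 ×ˢ univ) (Δ := Δ)
    (fun d => by simpa [hΔ] using bl_card _ _)
    (fun j d d' h => (ind_in _ _ fun b b' => a4 _ _ fun e => h (mem_product.2
      ⟨bl_add (bl_add (p1 d b) e) (bl_symm hρ (p1 d' b')), mem_univ _⟩)).comp
        (measurable_one.indicator (B1 j d)) (measurable_one.indicator (B1 j d')))
    (l := n / 1000) (by positivity) (by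
      have : ((3000000 * (50002 * Δ) : ℕ) : ℝ) < n := by exact_mod_cast not_le.1 h0
      simp only [Fintype.card_option, Fintype.card_fin, Fintype.card_prod, ← hn]
      push_cast at this ⊢
      nlinarith)
  have e1 : ∀ j, ∑ d, (stdGaussian (EuclideanSpace ℝ Q)).real
      ((fun z b => ⟪a (pr ρ I d b), z⟫) ⁻¹' B j d) ≤ 0.3034 * n + 1 := fun j => by
    refine (sum_le_sum (g := fun d => 0.1106 + (0.0821 * (if d.1 ∈ I then 1 else 0) -
      0.1106 * (if (ρ d).1 ∈ I then 1 else 0))) fun d _ => ?_).trans ?_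
    · by_cases h1 : d.1 ∈ I
      · have := a3 d.1 d.2
        simp only [B, h1, I2 d h1, true_or, if_true, if_false]
        refine (wd_le _ (fun _ => a1 _) (τ := 0.302) (by norm_num) (by norm_num) ?_ j).trans
          (by norm_num)
        simp only [pr, h1, if_true, Bool.false_eq_true, if_false]
        linarith
      by_cases h2 : (ρ d).1 ∈ I
      · simp [B, h1, h2]
      · have := a2 d
        simp only [B, h1, h2, not_false_eq_true, or_true, if_true, if_false]
        refine (wd_le _ (fun _ => a1 _) le_rfl (by norm_num) ?_ j).trans (by norm_num)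
        simp only [pr, h1, if_true, Bool.false_eq_true, if_false]
        linarith
    · have e : ∑ d, (if (ρ d).1 ∈ I then (1 : ℝ) else 0) = _ :=
        Equiv.sum_comp hρ.toPerm fun d => if d.1 ∈ I then (1 : ℝ) else 0
      have e' : ∑ d : Q × Fin 3, (if d.1 ∈ I then (1 : ℝ) else 0) = 3 * #I := by
        simp only [Fintype.sum_prod_type, Fin.sum_univ_three, sum_add_distrib]
        simp
        ring
      rw [sum_add_distrib, sum_sub_distrib, ← mul_sum, ← mul_sum, e, e']
      have : (n : ℝ) ≤ 3 * #I + 1 := by exact_mod_cast (by omega : n ≤ 3 * #I + 1)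
      simp [← hn]
      linarith
  refine sw_maj hρ I (fun v => ⟪a v, z⟫) fun A hA => ?_
  rcases A.eq_empty_or_nonempty with rfl | hne
  · have := out_maj hρ I2 ∅
    simp at this
    simp [this]
  obtain ⟨u, u1, u2⟩ := exists_min_image A (fun v => ⟪a v, z⟫) hne
  obtain ⟨j, hj⟩ := wd_cover ⟪a u, z⟫
  have e2 : ((2 * #(out ρ (maj ρ I A)) : ℕ) : ℝ) ≤ 0.3034 * n + 1 + n / 1000 := by
    refine le_trans ((Nat.cast_le.2 (out_maj hρ I2 A)).trans ?_)
      ((hz j).trans (add_le_add_left (e1 j) _))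
    push_cast
    refine sum_le_sum fun d _ => ?_
    split_ifs with h
    · rw [Set.indicator_of_mem]
      · rfl
      simp only [B, h.1, if_true, Set.mem_preimage]
      by_cases h1 : pr ρ I d true ∈ A
      · have h2 : pr ρ I d false ∉ A := fun e => h.2 (iff_of_true h1 e)
        exact hj _ (min_le_of_right_le (hA u u1 _ h2)) (le_max_of_le_left (u2 _ h1))
      · have h2 : pr ρ I d false ∈ A := by_contra fun e => h.2 (iff_of_false h1 e)
        exact hj _ (min_le_of_left_le (hA u u1 _ h1)) (le_max_of_le_right (u2 _ h2))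
    · exact Set.indicator_nonneg (fun _ _ => zero_le_one) _
  have e3 : 400 * #(out ρ (maj ρ I A)) ≤ 61 * n + 200 := by
    have : ((400 * #(out ρ (maj ρ I A)) : ℕ) : ℝ) ≤ (61 * n + 200 : ℕ) := by
      push_cast at e2 ⊢
      linarith
    exact_mod_cast this
  omega

end Pool.Agent.MP_de21d3_co.H60
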