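import Mathlib

/-!
Gaussian estimates: the chance that a threshold separates two correlated Gaussians, and
concentration for sums of indicators with few dependencies.
-/

set_option autoImplicit false

namespace Pool.Agent.MP_de21d3_co.H60

open MeasureTheory ProbabilityTheory Real Finset
open scoped RealInnerProductSpace ENNReal NNReal

section conc

variable {Ω : Type} [MeasurableSpace Ω] {μ : Measure Ω} [IsProbabilityMeasure μ]

lemma conc {T J : Type} [Fintype T] [Fintype J] (A : J → T → Set Ω)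
    (hA : ∀ j t, MeasurableSet (A j t)) (dep : T → Finset T) {Δ : ℕ} (hΔ : ∀ t, #(dep t) ≤ Δ)
    (hi : ∀ j t, ∀ t' ∉ dep t, IndepFun ((A j t).indicator (1 : Ω → ℝ))
      ((A j t').indicator (1 : Ω → ℝ)) μ) {l : ℝ} (hl : 0 < l)
    (h : Fintype.card J * (Fintype.card T * Δ) < l ^ 2) :
    ∃ ω, ∀ j, ∑ t, (A j t).indicator 1 ω ≤ ∑ t, μ.real (A j t) + l := by
  classical
  have m : ∀ j t, MemLp ((A j t).indicator (1 : Ω → ℝ)) 2 μ := fun j t =>
    (memLp_const 1).indicator (hA j t)
  have e : ∀ j t, μ[(A j t).indicator (1 : Ω → ℝ)] = μ.real (A j t) := fun j t =>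
    integral_indicator_one (hA j t)
  have c : ∀ j t t', cov[(A j t).indicator (1 : Ω → ℝ), (A j t').indicator 1; μ] ≤
      if t' ∈ dep t then 1 else 0 := fun j t t' => by
    split_ifs with h
    · rw [covariance_eq_sub (m j t) (m j t'), ← Set.inter_indicator_one, e, e,
        integral_indicator_one ((hA j t).inter (hA j t'))]
      exact (sub_le_self _ (by positivity)).trans measureReal_le_one
    · exact ((hi j t t' h).covariance_eq_zero (m j t) (m j t')).le
  have v : ∀ j, μ.real {ω | l ≤ |(∑ t, (A j t).indicator (1 : Ω → ℝ)) ω - ∑ t, μ.real (A j t)|} ≤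
      Fintype.card T * Δ / l ^ 2 := fun j => by
    have := meas_ge_le_variance_div_sq (memLp_finsetSum' univ fun t _ => m j t) hl
    simp only [Finset.sum_apply, integral_finsetSum _ fun t _ => (m j t).integrable one_le_two,
      e] at this
    simp only [Finset.sum_apply]
    refine ENNReal.toReal_le_of_le_ofReal (by positivity) (this.trans (ENNReal.ofReal_le_ofReal ?_))
    rw [variance_sum (m j)]
    gcongr
    refine (sum_le_card_nsmul _ _ (Δ : ℝ) fun t _ => (sum_le_sum fun t' _ => c j t t').trans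
      ?_).trans_eq (by simp)
    simpa using hΔ t
  by_contra hn
  push Not at hn
  have h1 := (measureReal_mono (s₁ := Set.univ) (fun ω _ => ?_)).trans
      ((measureReal_iUnion_fintype_le _).trans (sum_le_sum fun j _ => v j))
  swap
  · obtain ⟨j, hj⟩ := hn ω
    refine Set.mem_iUnion.2 ⟨j, ?_⟩
    rw [Set.mem_ofPred_eq, Finset.sum_apply]
    exact le_abs.2 (Or.inl (by linarith))
  rw [probReal_univ, sum_const, card_univ, nsmul_eq_mul, ← mul_div_assoc,
    le_div_iff₀ (by positivity)] at h1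
  linarith

end conc

lemma abs_gauss (v : ℝ≥0) : ∫ x, |x| ∂gaussianReal 0 v = √v * (2 / √(2 * π)) := by
  have h1 : gaussianReal 0 v = (gaussianReal 0 1).map (√v * ·) := by
    rw [gaussianReal_map_const_mul]
    congr 1
    · simp
    · ext; simp
  rw [h1, integral_map (by fun_prop) (by fun_prop)]
  simp only [abs_mul, integral_const_mul, abs_of_nonneg (sqrt_nonneg _)]
  congr 1
  rw [integral_gaussianReal_eq_integral_smul one_ne_zero]
  have := integral_comp_abs (f := fun x => (√(2 * π))⁻¹ * (x ^ (1 : ℝ) * exp (-(1 / 2) * x ^ (2 : ℝ))))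
  rw [integral_const_mul, integral_const_mul,
    integral_rpow_mul_exp_neg_mul_rpow two_pos (by norm_num) (by norm_num)] at this
  simp only [gaussianPDFReal, smul_eq_mul]
  norm_num at this ⊢
  rw [← integral_const_mul] at this
  convert this using 1
  · congr 1
    ext x
    rw [mul_assoc, mul_comm |x|]
    congr 3
    ring
  · field_simp

lemma ivl_gauss {v : ℝ≥0} (hv : v ≠ 0) (θ : ℝ) (r : ℝ) :
    gaussianReal 0 v {x | |x - θ| ≤ r} ≤ ENNReal.ofReal ((√(2 * π * v))⁻¹ * (2 * r)) := by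
  rw [gaussianReal_apply _ hv, ENNReal.ofReal_mul (by positivity)]
  refine (setLIntegral_mono' (g := fun _ => ENNReal.ofReal (√(2 * π * v))⁻¹)
    (measurableSet_le (by fun_prop) (by fun_prop)) fun x _ => ENNReal.ofReal_le_ofReal ?_).trans ?_
  · refine mul_le_of_le_one_right (by positivity) (exp_le_one_iff.2 ?_)
    exact div_nonpos_of_nonpos_of_nonneg (neg_nonpos.2 (sq_nonneg _)) (by positivity)
  · rw [setLIntegral_const]
    gcongr
    exact (volume_closedBall θ r).le

variable {E : Type} [NormedAddCommGroup E] [InnerProductSpace ℝ E] [FiniteDimensional ℝ E]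
  [MeasurableSpace E] [BorelSpace E]

lemma cov_in (x y : E) : cov[fun z => ⟪x, z⟫, fun z => ⟪y, z⟫; stdGaussian E] = ⟪x, y⟫ := by
  rw [← covarianceBilin_apply_eq_cov IsGaussian.memLp_two_id, covarianceBilin_stdGaussian]
  rfl

lemma law_in (x : E) : (stdGaussian E).map (fun z => ⟪x, z⟫) = gaussianReal 0 (‖x‖₊ ^ 2) := by
  have := IsGaussian.map_eq_gaussianReal (μ := stdGaussian E) (innerSL ℝ x)
  rw [integral_strongDual_stdGaussian, variance_dual_stdGaussian, innerSL_apply_norm] at this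
  exact this.trans (by congr 1; ext; simp)

lemma ind_in {ι : Type} [Fintype ι] (x y : ι → E) (h : ∀ i j, ⟪x i, y j⟫ = 0) :
    IndepFun (fun z i => ⟪x i, z⟫) (fun z i => ⟪y i, z⟫) (stdGaussian E) :=
  have := (IsGaussian.hasGaussianLaw_id (μ := stdGaussian E)).map_fun
    ((ContinuousLinearMap.pi fun i => innerSL ℝ (x i)).prod
      (ContinuousLinearMap.pi fun i => innerSL ℝ (y i)))
  HasGaussianLaw.indepFun_of_covariance_eval this fun i j => (cov_in _ _).trans (h i j)

lemma wedge {x y : E} (h : ⟪x, y⟫ = 0) (hx : x ≠ 0) (θ : ℝ) {η : ℝ} (hη : 0 ≤ η) :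
    (stdGaussian E).real {z | |⟪x, z⟫ - θ| ≤ |⟪y, z⟫| + η} ≤
      2 / π * (‖y‖ / ‖x‖) + η / ‖x‖ := by
  have hi : IndepFun (fun z => ⟪x, z⟫) (fun z => ⟪y, z⟫) (stdGaussian E) :=
    (ind_in (fun _ : Unit => x) (fun _ => y) fun _ _ => h).comp (measurable_pi_apply ())
      (measurable_pi_apply ())
  have ms : MeasurableSet {p : ℝ × ℝ | |p.1 - θ| ≤ |p.2| + η} :=
    measurableSet_le (by fun_prop) (by fun_prop)
  have h1 := Measure.map_apply (μ := stdGaussian E) (f := fun z => (⟪x, z⟫, ⟪y, z⟫))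
    (by fun_prop) ms
  rw [(indepFun_iff_map_prod_eq_prod_map_map (by fun_prop) (by fun_prop)).1 hi, law_in, law_in,
    Measure.prod_apply_symm ms] at h1
  have x0 := norm_pos_iff.2 hx
  refine ENNReal.toReal_le_of_le_ofReal (by positivity) (h1.symm.trans_le ((lintegral_mono fun w =>
    ivl_gauss (by simpa) θ (|w| + η)).trans ?_))
  have i1 : Integrable (fun w : ℝ => |w|) (gaussianReal 0 (‖y‖₊ ^ 2)) :=
    IsGaussian.integrable_id.abs
  have i2 : Integrable (fun w : ℝ => |w| + η) (gaussianReal 0 (‖y‖₊ ^ 2)) :=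
    i1.add (integrable_const η)
  rw [← ofReal_integral_eq_lintegral_ofReal ((i2.const_mul 2).const_mul _)
    (Filter.Eventually.of_forall fun w => by positivity)]
  refine ENNReal.ofReal_le_ofReal ?_
  rw [integral_const_mul, integral_const_mul, integral_add i1 (integrable_const η), abs_gauss]
  have p0 : 0 < √(2 * π) := by positivity
  have p1 : √(2 * π) * √(2 * π) = 2 * π := mul_self_sqrt (by positivity)
  have p2 : 2 ≤ √(2 * π) := le_sqrt_of_sq_le (by linarith [pi_gt_three])
  simp only [NNReal.coe_pow, coe_nnnorm, sqrt_sq (norm_nonneg _), integral_const, probReal_univ,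
    one_smul, sqrt_mul' _ (sq_nonneg _)]
  rw [mul_add, mul_add]
  refine add_le_add (le_of_eq ?_) ?_
  · field_simp
    rw [sq, p1]
  · rw [inv_mul_eq_div, div_le_div_iff₀ (by positivity) x0]
    nlinarith [mul_nonneg hη x0.le]

/-- Some point of `[θ - η, θ + η]` lies between the two values. -/
def Sp (a b : E) (θ η : ℝ) : Set E :=
  {z | min ⟪a, z⟫ ⟪b, z⟫ ≤ θ + η ∧ θ - η ≤ max ⟪a, z⟫ ⟪b, z⟫}

lemma sp_le {a b : E} (ha : ‖a‖ = 1) (hb : ‖b‖ = 1) {τ : ℝ} (h0 : 0 ≤ τ) (h1 : τ ≤ 1)
    (h : 1 - τ ^ 2 ≤ (1 + τ ^ 2) * ⟪a, b⟫) (θ : ℝ) {η : ℝ} (hη : 0 ≤ η) :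
    (stdGaussian E).real (Sp a b θ η) ≤ 2 / π * τ + 2 * η := by
  have e1 := norm_add_sq_real a b
  have e2 := norm_sub_sq_real a b
  rw [ha, hb] at e1 e2
  have e3 : 0 ≤ ⟪a, b⟫ := by nlinarith [sq_nonneg τ]
  have e4 : 1 ≤ ‖a + b‖ := by nlinarith [norm_nonneg (a + b)]
  refine le_trans (measureReal_mono fun z hz => ?_) ((wedge (x := a + b) (y := a - b) ?_
    (norm_pos_iff.1 (by linarith)) (2 * θ) (η := 2 * η) (by linarith)).trans (add_le_add ?_ ?_))
  · obtain ⟨h2, h3⟩ := hz
    rw [Set.mem_ofPred_eq, inner_add_left, inner_sub_left, abs_le]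
    rcases le_total ⟪a, z⟫ ⟪b, z⟫ with h4 | h4
    · rw [min_eq_left h4] at h2
      rw [max_eq_right h4] at h3
      rw [abs_of_nonpos (sub_nonpos.2 h4)]
      constructor <;> linarith
    · rw [min_eq_right h4] at h2
      rw [max_eq_left h4] at h3
      rw [abs_of_nonneg (sub_nonneg.2 h4)]
      constructor <;> linarith
  · rw [inner_add_left, inner_sub_right, inner_sub_right, real_inner_self_eq_norm_sq,
      real_inner_self_eq_norm_sq, ha, hb, real_inner_comm]
    ring
  · gcongr
    rw [div_le_iff₀ (by linarith)]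
    exact le_of_sq_le_sq (by rw [mul_pow, e1, e2]; linarith) (by positivity)
  · exact div_le_self (by linarith) e4

lemma tail_le {a : E} (ha : ‖a‖ = 1) : (stdGaussian E).real {z | 5 ≤ |⟪a, z⟫|} ≤ 1 / 25 := by
  have := meas_ge_le_variance_div_sq (μ := stdGaussian E) (X := innerSL ℝ a)
    (IsGaussian.memLp_dual _ _ 2 (by simp)) (c := 5) (by norm_num)
  rw [integral_strongDual_stdGaussian, variance_dual_stdGaussian, innerSL_apply_norm, ha] at this
  exact ENNReal.toReal_le_of_le_ofReal (by norm_num) (by simpa [show (5 : ℝ) ^ 2 = 25 by norm_num] using this)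

end Pool.Agent.MP_de21d3_co.H60
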