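import Pool.Agent.MP_de21d3_co.H60.Seal

/-!
The strategy of the cops: two cops for each edge leaving the territory of the robber.
-/

set_option autoImplicit false
set_option linter.unusedSectionVars false

namespace Pool.Agent.MP_de21d3_co.H60

open Finset Function H91

variable {V : Type} [Fintype V] [DecidableEq V] {G : SimpleGraph V} {o : V} {par : V → V}
  {d : V → ℕ} {k : ℕ}

lemma Bfs.iter (T : Bfs G o par d) (y : V) (m : ℕ) : d (par^[m] y) = d y - m := by
  induction m with
  | zero => rfl
  | succ m ih => rw [iterate_succ_apply', T.dp, ih, Nat.sub_sub]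

lemma Bfs.near_iter (T : Bfs G o par d) (y : V) {m n : ℕ} (h : m ≤ n + 1) (h' : n ≤ m + 1) :
    near G (par^[m] y) (par^[n] y) := by
  rcases (by omega : n = m ∨ n = m + 1 ∨ m = n + 1) with rfl | rfl | rfl
  · exact near_refl _
  · exact iterate_succ_apply' par m y ▸ T.nr _
  · exact iterate_succ_apply' par n y ▸ (T.nr _).symm

lemma Bfs.shadow (T : Bfs G o par d) (y : V) (m : ℕ) :
    par^[d y - d (par^[m] y)] y = par^[m] y := by
  rw [T.iter]
  by_cases h : m ≤ d y
  · rw [Nat.sub_sub_self h]
  · exact ((T.rt _).1 (by rw [T.iter]; omega)).trans ((T.rt _).1 (by rw [T.iter]; omega)).symm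

/-- Each vertex of `Y` has a cop at the level of the robber on its path to the root. -/
def Ready (par : V → V) (d : V → ℕ) (Y : Finset V) (c : Fin k → V) (r : V) : Prop :=
  ∃ g : Fin k → V, ∀ y ∈ Y, ∃ i, g i = y ∧ c i = par^[d y - d r] y

lemma Bfs.caught (T : Bfs G o par d) {Y : Finset V} {c : Fin k → V} {r : V}
    (h : Ready par d Y c r) (h' : ¬Free par Y r) : RWin G c r := by
  simp only [Free, not_forall, not_not] at h'
  obtain ⟨y, hy, m, rfl⟩ := h'
  obtain ⟨g, hg⟩ := h
  obtain ⟨i, -, e⟩ := hg y hy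
  exact Or.inl ⟨i, e.trans (T.shadow y m)⟩

lemma Bfs.bring (T : Bfs G o par d) (P : V → Prop) (Y : Finset V) (z : V) (hk : #Y < k)
    (hP : ∀ r r', P r → near G r r' → Free par Y r → Free par Y r' → P r')
    (H : ∀ (c : Fin k → V) r, Ready par d (insert z Y) c r → P r → RWin G c r)
    (c : Fin k → V) (r : V) (h : Ready par d Y c r) (hr : P r) : RWin G c r := by
  obtain ⟨g, hg⟩ := h
  have : Nonempty (Fin k) := ⟨⟨0, by omega⟩⟩
  choose! f hf using hg
  obtain ⟨x, -, hx⟩ := exists_mem_notMem_of_card_lt_card (s := Y.image f) (t := univ)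
    (card_image_le.trans_lt (by simpa))
  have hx' : ∀ y ∈ Y, f y ≠ x := fun y hy e => hx (e ▸ mem_image_of_mem f hy)
  let R : (Fin k → V) → V → Prop := fun c r => P r ∧ ∀ y ∈ Y, c (f y) = par^[d y - d r] y
  have mv : ∀ c r, R c r → (∀ r', near G r r' → ∃ u, near G (c x) u ∧
      ∀ c', R c' r' → c' x = u → RWin G c' r') → RWin G c r := fun c r h H => by
    by_cases a : Free par Y r
    · refine Or.inr fun r' hr' => ?_
      obtain ⟨u, u1, u2⟩ := H r' hr'
      let c' : Fin k → V := fun i => if i = x then u else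
        if c i = par^[d (g i) - d r] (g i) then par^[d (g i) - d r'] (g i) else c i
      have b : ∀ y ∈ Y, c' (f y) = par^[d y - d r'] y := fun y hy => by
        simp [c', hx' y hy, h.2 y hy, (hf y hy).1]
      refine win_step (c' := c') (fun i => ?_) ?_
      · have := T.lip _ _ hr'
        have := T.lip _ _ hr'.symm
        simp only [c']
        split_ifs with e e'
        exacts [e ▸ u1, e' ▸ T.near_iter _ (by omega) (by omega), near_refl _]
      by_cases a' : Free par Y r'
      · exact u2 c' ⟨hP r r' h.1 hr' a a', b⟩ (if_pos rfl)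
      · exact T.caught ⟨g, fun y hy => ⟨_, (hf y hy).1, b y hy⟩⟩ a'
    · exact T.caught ⟨g, fun y hy => ⟨_, (hf y hy).1, h.2 y hy⟩⟩ a
  have h2 : ∀ m c r, R c r → c x = par^[m] z → d z ≤ m + d r → RWin G c r := fun m => by
    induction m using Nat.strong_induction_on with
    | _ m ih =>
    refine fun c r h e a => mv c r h fun r' hr' => ?_
    have := T.lip _ _ hr'
    by_cases b : m ≤ d z - d r' + 1
    · refine ⟨_, e ▸ T.near_iter z b (by omega), fun c' h' e' => H c' r' ⟨update g x z,
        fun y hy => ?_⟩ h'.1⟩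
      rcases mem_insert.1 hy with rfl | hy
      · exact ⟨x, update_self .., e'⟩
      · exact ⟨f y, (update_of_ne (hx' y hy) ..).trans (hf y hy).1, h'.2 y hy⟩
    · exact ⟨_, e ▸ T.near_iter z (n := m - 1) (by omega) (by omega), fun c' h' e' =>
        ih _ (by omega) c' r' h' e' (by omega)⟩
  have h1 : ∀ m c r, R c r → d (c x) = m → RWin G c r := fun m => by
    induction m with
    | zero =>
      exact fun c r h e => h2 (d z) c r h (((T.rt _).1 e).trans ((T.rt _).1
        (by rw [T.iter]; omega)).symm) (by omega)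
    | succ m ih =>
      exact fun c r h e => mv c r h fun r' _ => ⟨_, T.nr _, fun c' h' e' =>
        ih c' r' h' (by rw [e', T.dp]; omega)⟩
  exact h1 _ c r ⟨hr, fun y hy => (hf y hy).2⟩ rfl

theorem cops : ∃ C : ℕ, ∀ (V : Type) [Fintype V] [DecidableEq V] (G : SimpleGraph V),
    G.Connected → ∀ (σ : Scheme G) (g : ℕ), Nat.card G.edgeSet + 2 ≤ Nat.card V + σ.faces + g →
      CopsWin G (61 * g / 100 + C) := by
  obtain ⟨C, hC⟩ := sweep_rank
  refine ⟨2 * C + 1, fun V _ _ G hG σ g hg => ?_⟩
  obtain ⟨o⟩ := hG.nonempty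
  obtain ⟨par, d, T⟩ := exists_bfs hG o
  obtain ⟨ρ, t, hρ, ht, hn, hs⟩ := sealing σ T hg
  let X : Finset (Flag G) → Finset V := fun K => (out ρ K).biUnion t
  let I : Finset (Flag G) → V → Prop := fun K r => ∀ q : Flag G, q.1.1 = r → q ∈ K
  have hX : ∀ K, ∀ e ∈ out ρ K, t e ⊆ X K := fun K e => subset_biUnion_of_mem t
  have cX : ∀ K, #(X K) ≤ #(out ρ K) * 2 := fun K => card_biUnion_le_card_mul _ _ _ fun e _ => ht e
  have := hC _ ρ g (fun K => ∀ (c : Fin (61 * g / 100 + (2 * C + 1)) → V) r,
    Ready par d (X K) c r → I K r → RWin G c r) hρ (fun K ⟨p, hp⟩ hK => ?_) hn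
    (fun K hK c r _ h => ?_) fun A B h hA hB => ?_
  · exact copsWin_of (fun _ => o) fun r => win_step (fun _ => near_refl _)
      (this _ r ⟨fun _ => o, by simp [X, out]⟩ fun _ _ => mem_univ _)
  · by_contra! h
    have a : ∀ p ∈ K, ∀ q : Flag G, near G p.1.1 q.1.1 → q ∈ K := fun p hp q e =>
      hs K ∅ (fun e he => absurd (h e (mem_out.1 he).1) (mem_out.1 he).2) p hp q e
        (by simp [Free]) (by simp [Free])
    refine hK (eq_univ_of_forall fun q => ?_)
    obtain ⟨w⟩ := hG.preconnected p.1.1 q.1.1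
    generalize e : p.1.1 = u at w
    generalize e' : q.1.1 = v at w
    induction w generalizing p with
    | nil => exact a p hp q (Or.inl (e.trans e'.symm))
    | cons b w ih => exact ih ⟨(_, _, true), b.symm⟩ (a p hp _ (Or.inr (e ▸ b))) rfl e'
  · obtain ⟨w⟩ := hG.preconnected r (c ⟨0, by omega⟩)
    generalize e : c ⟨0, by omega⟩ = v at w
    cases w with
    | nil => exact Or.inl ⟨_, e⟩
    | cons b _ => simpa using congrArg Subtype.val (card_le_one.1 hK _
        (h ⟨(_, _, true), b⟩ rfl) _ (h ⟨(_, _, false), b⟩ rfl))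
  have s : X (A ∪ B) ⊆ X A ∪ X B := by
    rw [← union_biUnion]
    refine biUnion_subset_biUnion_of_subset_left _ fun e => ?_
    simp only [mem_out, mem_union]
    tauto
  have key : ∀ D : Finset V, D ⊆ X A ∪ X B → (∀ (c : Fin (61 * g / 100 + (2 * C + 1)) → V) r,
      Ready par d (D ∪ X (A ∪ B)) c r → I (A ∪ B) r → RWin G c r) →
      ∀ (c : Fin (61 * g / 100 + (2 * C + 1)) → V) r, Ready par d (X (A ∪ B)) c r → I (A ∪ B) r → RWin G c r := fun D => by
    induction D using Finset.induction_on with
    | empty => simp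
    | insert z D _ ih =>
      refine fun a H => ih ((subset_insert _ _).trans a) (T.bring _ _ z ?_ (fun r r' b e f f' => ?_)
        (insert_union z D _ ▸ H))
      · have := card_le_card (union_subset ((subset_insert _ _).trans a) s)
        have := card_union_le (X A) (X B)
        have := cX A
        have := cX B
        omega
      · rcases e with rfl | e
        · exact b
        · exact fun q hq => hs _ _ (fun e he => (hX _ e he).trans subset_union_right)
            ⟨(_, _, true), e⟩ (b _ rfl) q (Or.inr (hq ▸ e)) f (hq ▸ f')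
  refine key _ Subset.rfl fun c r h hr => ?_
  rw [union_eq_left.2 s] at h
  by_cases a : Free par (X A ∪ X B) r
  · obtain ⟨g, h⟩ := h
    by_cases b : ∃ p ∈ A, p.1.1 = r
    · obtain ⟨p, hp, rfl⟩ := b
      exact hA c _ ⟨g, fun y hy => h y (mem_union_left _ hy)⟩ fun q hq => hs _ _
        (fun e he => (hX _ e he).trans subset_union_left) p hp q (Or.inl hq.symm) a (hq ▸ a)
    · exact hB c _ ⟨g, fun y hy => h y (mem_union_right _ hy)⟩ fun q hq =>
        (mem_union.1 (hr q hq)).resolve_left fun e => b ⟨q, e, hq⟩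
  · exact T.caught h a

end Pool.Agent.MP_de21d3_co.H60
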