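import Pool.Agent.MP_de21d3_co.H60.Sweep
import Pool.Agent.MP_de21d3_co.H91.Game

/-!
The subcubic dual graph on the flags, and the sealing of a set of flags by geodesics to a root.
-/

set_option autoImplicit false
set_option linter.unusedSectionVars false

namespace Pool.Agent.MP_de21d3_co.H60

open Finset Function H91

lemma parity {N : Type} [Fintype N] [DecidableEq N] {α β : N → N} (hα : Involutive α)
    (hβ : Involutive β) (a : ∀ p, α p ≠ p) (b : ∀ p, β p ≠ p) (φ : N → Prop) (c : N)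
    (h1 : ∀ p, φ p → φ (α p)) (h2 : ∀ p, p ≠ c → p ≠ β c → φ p → φ (β p)) : φ c ↔ φ (β c) := by
  classical
  have key : ∀ (γ : N → N) (s : Finset N), Involutive γ → (∀ p, γ p ≠ p) → (∀ p ∈ s, γ p ∈ s) →
      Even #s := fun γ s h h' h'' => by
    rw [← ZMod.natCast_eq_zero_iff_even, card_eq_sum_ones, Nat.cast_sum]
    exact sum_involution (fun p _ => γ p) (fun _ _ => rfl) (fun p _ _ => h' p) h'' fun p _ => h p
  have e1 := key α {p | φ p} hα a (by simpa using h1)
  have e2 := key β {p | φ p ∧ p ≠ c ∧ p ≠ β c} hβ b (by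
    simp only [mem_filter, mem_univ, true_and]
    exact fun p ⟨x, y, z⟩ => ⟨h2 p y z x, fun e => z (by rw [← e, hβ]), fun e => y (hβ.injective e)⟩)
  have e3 : ∀ x y, φ x → ¬φ y → (∀ p, (p ≠ c ∧ p ≠ β c) ↔ (p ≠ x ∧ p ≠ y)) → False :=
    fun x y hx hy h => by
      rw [show univ.filter φ = insert x (univ.filter fun p => φ p ∧ p ≠ c ∧ p ≠ β c) by
        ext p; simp only [h]; grind, card_insert_of_notMem (by simp [h]), Nat.even_add_one] at e1
      exact e1 e2
  exact ⟨fun h => by_contra fun h' => e3 _ _ h h' fun _ => Iff.rfl,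
    fun h => by_contra fun h' => e3 _ _ h h' fun _ => and_comm⟩

variable {V : Type} [Fintype V] [DecidableEq V] {G : SimpleGraph V} (σ : Scheme G)

noncomputable instance : Fintype (Flag G) := by
  unfold H91.Flag
  exact Fintype.ofFinite _

instance : DecidableEq (Flag G) := by
  unfold H91.Flag
  infer_instance

/-- The three involutions on flags. -/
def sw (i : Fin 3) (p : Flag G) : Flag G :=
  if i = 0 then ⟨(p.1.2.1, p.1.1, if σ.sig s(p.1.1, p.1.2.1) then p.1.2.2 else !p.1.2.2), p.2.symm⟩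
  else if i = 1 then ⟨(p.1.1, (if p.1.2.2 then (σ.rot p.1.1).formPerm
    else (σ.rot p.1.1).formPerm⁻¹) p.1.2.1, !p.1.2.2), by
      have := (σ.mem _ _).2 p.2
      refine (σ.mem _ _).1 ?_
      split_ifs
      · exact List.formPerm_apply_mem_of_mem this
      · exact List.mem_of_formPerm_apply_mem (by simpa)⟩
  else ⟨(p.1.1, p.1.2.1, !p.1.2.2), p.2⟩

lemma sw_inv (i : Fin 3) : Involutive (sw σ i) := fun ⟨⟨u, v, b⟩, h⟩ => by
  refine Subtype.ext ?_
  fin_cases i
  · cases b <;> cases e : σ.sig s(u, v) <;> simp [sw, e, Sym2.eq_swap (a := v)]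
  · cases b <;> simp [sw]
  · simp [sw]

lemma sw_ne (i : Fin 3) (p : Flag G) : sw σ i p ≠ p := fun h => by
  have e := congrArg Subtype.val h
  have := p.2.ne'
  fin_cases i <;> simp [sw, Prod.ext_iff, this] at e

lemma sw_face (i : Fin 3) (hi : i ≠ 2) (p : Flag G) : Quot.mk σ.Rel (sw σ i p) = Quot.mk _ p := by
  obtain ⟨⟨u, v, b⟩, h⟩ := p
  fin_cases i
  · exact (Quot.sound (r := σ.Rel) (Or.inl rfl)).symm
  · cases b
    · exact Quot.sound (Or.inr (by simp [sw]))
    · exact (Quot.sound (r := σ.Rel) (Or.inr ⟨rfl, rfl⟩)).symm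
  · exact absurd rfl hi

/-- A breadth-first tree with root `o`. -/
structure Bfs (G : SimpleGraph V) (o : V) (par : V → V) (d : V → ℕ) : Prop where
  nr : ∀ v, near G v (par v)
  dp : ∀ v, d (par v) = d v - 1
  rt : ∀ v, d v = 0 ↔ v = o
  lip : ∀ u v, near G u v → d u ≤ d v + 1

lemma exists_bfs (hG : G.Connected) (o : V) : ∃ par d, Bfs G o par d := by
  have : ∀ v, ∃ w, near G v w ∧ G.dist w o = G.dist v o - 1 := fun v => by
    obtain ⟨p, hp⟩ := hG.exists_walk_length_eq_dist v o
    cases p with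
    | nil => exact ⟨_, near_refl _, by simp⟩
    | cons h p =>
      have := SimpleGraph.dist_le p
      have := h.diff_dist_adj (u := o)
      simp only [SimpleGraph.dist_comm (u := o), SimpleGraph.Walk.length_cons] at *
      exact ⟨_, Or.inr h, by omega⟩
  choose par h1 h2 using this
  refine ⟨par, (G.dist · o), h1, h2, fun v => hG.dist_eq_zero_iff, fun u v h => ?_⟩
  rcases h with rfl | h
  · omega
  · have := h.diff_dist_adj (u := o)
    simp only [SimpleGraph.dist_comm (u := o)] at this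
    omega

/-- `v` lies on no tree path from `X` to the root. -/
def Free (par : V → V) (X : Finset V) (v : V) : Prop := ∀ y ∈ X, ∀ m, par^[m] y ≠ v

theorem sealing {o : V} {par : V → V} {d : V → ℕ} (T : Bfs G o par d) {g : ℕ}
    (hg : Nat.card G.edgeSet + 2 ≤ Nat.card V + σ.faces + g) :
    ∃ (ρ : Flag G × Fin 3 → Flag G × Fin 3) (t : Flag G × Fin 3 → Finset V), Involutive ρ ∧
      (∀ e, #(t e) ≤ 2) ∧ #{e | (ρ e).1 ≠ e.1} + 2 ≤ 2 * Fintype.card (Flag G) + 2 * g ∧
      ∀ (K : Finset (Flag G)) (X : Finset V), (∀ e ∈ out ρ K, t e ⊆ X) → ∀ p ∈ K, ∀ q : Flag G,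
        near G p.1.1 q.1.1 → Free par X p.1.1 → Free par X q.1.1 → q ∈ K := by
  classical
  let _ : LinearOrder V := LinearOrder.lift' _ (Fintype.equivFin V).injective
  let f : Flag G → Quot σ.Rel := Quot.mk _
  let A : Fin 3 → Flag G → Prop := fun i p => if i = 1 then p ≠ (f p).out ∧ p ≠ sw σ 1 (f p).out
    else i = 2 → p.1.1 < p.1.2.1 ∧ par p.1.1 ≠ p.1.2.1 ∧ par p.1.2.1 ≠ p.1.1
  let t : Fin 3 → Flag G → Finset V := fun i p => if i = 2 then {p.1.1, p.1.2.1}
    else {if i = 0 then max p.1.1 p.1.2.1 else p.1.1, (f p).out.1.1}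
  have f0 : ∀ p, f (sw σ 0 p) = f p := sw_face σ 0 (by decide)
  have f1 : ∀ p, f (sw σ 1 p) = f p := sw_face σ 1 (by decide)
  have fo : ∀ x : Quot σ.Rel, f x.out = x := Quot.out_eq
  have hA : ∀ i p, A i p → A i (sw σ i p) := fun i p => by
    fin_cases i
    · simp [A]
    · simp only [A, Fin.mk_one, if_true, f1]
      exact fun ⟨a, b⟩ => ⟨fun e => b (by rw [← e, sw_inv]), fun e => a ((sw_inv σ 1).injective e)⟩
    · simp [A, sw]
  refine ⟨fun e => (if A e.2 e.1 then sw σ e.2 e.1 else e.1, e.2), fun e => t e.2 e.1,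
    fun ⟨p, i⟩ => ?_, fun e => ?_, ?_, fun K X hX => ?_⟩
  · by_cases h : A i p
    · simp [h, hA i p h, sw_inv σ i p]
    · simp [h]
  · simp only [t]
    split_ifs <;> exact card_le_two
  · let _ := Fintype.ofFinite (Quot σ.Rel)
    have pa : ∀ v, v ≠ o → d (par v) + 1 = d v := fun v h => by
      have := T.dp v
      have := (T.rt v).not.2 h
      omega
    have c0 : #{e : Flag G × Fin 3 | A e.2 e.1} = ∑ i, #{p | A i p} := by
      simp only [card_filter, Fintype.sum_prod_type_right]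
    have c1 : #(univ : Finset (Quot σ.Rel × Bool)) ≤ #{p | ¬A 1 p} :=
      card_le_card_of_injOn (fun x => if x.2 then x.1.out else sw σ 1 x.1.out)
        (fun ⟨x, b⟩ _ => by cases b <;> simp [A, f1, fo]) fun ⟨x, b⟩ _ ⟨y, c⟩ _ h => by
          obtain rfl : x = y := by
            have := congrArg f h
            cases b <;> cases c <;> simpa [f1, fo] using this
          have := sw_ne σ 1 x.out
          cases b <;> cases c <;> first | rfl | exact absurd h this | exact absurd h.symm this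
    have c2 : #((univ.filter fun p => A 2 p).disjSum (univ.erase o ×ˢ (univ : Finset Bool))) ≤
        #(G.edgeFinset ×ˢ (univ : Finset Bool)) := by
      refine card_le_card_of_injOn (Sum.elim (fun p => (s(p.1.1, p.1.2.1), p.1.2.2))
        fun v => (s(v.1, par v.1), v.2)) ?_ ?_
      · rintro (p | ⟨v, b⟩) h
        · simpa using p.2
        · have := pa v (by simpa using h)
          simpa using (T.nr v).resolve_left fun e => by rw [← e] at this; omega
      · rintro (⟨⟨u, v, b⟩, _⟩ | ⟨v, b⟩) h (⟨⟨u', v', b'⟩, _⟩ | ⟨v', b'⟩) h' e <;>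
          simp [A] at h h' e ⊢
        · exact Subtype.ext (by grind)
        · grind
        · grind
        · have := pa v h
          have := pa v' h'
          grind
    have c3 := card_filter_add_card_filter_not (s := univ) fun p => A 1 p
    have c4 := card_le_univ (univ.filter fun p => A 0 p)
    have c5 := Fintype.card_pos_iff.2 ⟨o⟩
    refine le_trans (Nat.add_le_add_right ((card_le_card (monotone_filter_right _
      fun e _ h => by_contra fun a => h (by simp [a]))).trans c0.le) 2) ?_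
    simp only [card_disjSum, card_product, card_univ, Fintype.card_prod, Fintype.card_bool,
      card_erase_of_mem (mem_univ o), Fin.sum_univ_three, Scheme.faces, Nat.card_eq_fintype_card,
      SimpleGraph.card_edgeSet] at *
    omega
  have lk : ∀ i p, A i p → ∀ x ∈ t i p, x ∉ X → p ∈ K → sw σ i p ∈ K := fun i p h x h1 h2 h3 =>
    by_contra fun h4 => h2 (hX (p, i) (mem_out.2 ⟨h3, by simpa [h]⟩) h1)
  have l0 : ∀ p : Flag G, max p.1.1 p.1.2.1 ∉ X → p ∈ K → sw σ 0 p ∈ K := fun p =>
    lk 0 p (by simp [A]) _ (by simp [t])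
  have l1 : ∀ p : Flag G, p.1.1 ∉ X → p ∈ K → sw σ 1 p ∈ K := fun p h hp => by
    by_cases a : A 1 p
    · exact lk 1 p a _ (by simp [t]) h hp
    have b : p = (f p).out ∨ p = sw σ 1 (f p).out := by simpa [A, or_iff_not_imp_left] using a
    have c : (f p).out.1.1 ∉ X := by
      rcases b with b | b
      · exact b ▸ h
      · rw [b] at h
        simpa [sw] using h
    have := parity (sw_inv σ 0) (sw_inv σ 1) (sw_ne σ 0) (sw_ne σ 1) (fun q => f q = f p ∧ q ∈ K)
      (f p).out (fun q ⟨x, y⟩ => ⟨(f0 q).trans x, lk 0 q (by simp [A]) _ (by simp [t, x]) c y⟩)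
      fun q x y ⟨z, w⟩ => ⟨(f1 q).trans z, lk 1 q (by simp [A, z, x, y]) _ (by simp [t, z]) c w⟩
    simp only [f1, fo, true_and] at this
    rcases b with b | b
    · rw [← b] at this
      exact this.1 hp
    · rw [← b] at this
      rw [b, sw_inv]
      exact this.2 hp
  have nX : ∀ v, Free par X v → v ∉ X := fun v h hv => h v hv 0 rfl
  have key : ∀ n v, univ.sup d - d v = n → Free par X v → ∀ p ∈ K, ∀ q : Flag G, p.1.1 = v →
      q.1.1 = v → q ∈ K := fun n => by
    induction n using Nat.strong_induction_on with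
    | _ n ih =>
    intro v hn hv
    have l2 : ∀ p : Flag G, p.1.1 = v → p.1.2.1 ≠ par v → p ∈ K → sw σ 2 p ∈ K := by
      rintro ⟨⟨u, w, b⟩, hw⟩ hu h hp
      obtain rfl : v = u := hu.symm
      by_cases a : par w = v
      · have a1 : Free par X w := fun y hy m e => hv y hy (m + 1) (by rw [iterate_succ_apply', e, a])
        have a2 : ∀ {x}, x = max v w ∨ x = max w v → x ∉ X := by
          have := nX v hv
          have := nX w a1
          grind
        have a3 : d w ≠ 0 := fun e => hw.ne (((T.rt v).1 (by rw [← a, T.dp, e])).trans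
          ((T.rt w).1 e).symm)
        have a4 := le_sup (f := d) (mem_univ w)
        have a5 := a ▸ T.dp w
        exact sw_inv σ 0 (sw σ 2 _) ▸ l0 _ (a2 (Or.inr rfl)) (ih _ (by omega) w rfl a1 _
          (l0 _ (a2 (Or.inl rfl)) hp) (sw σ 0 (sw σ 2 ⟨_, hw⟩)) rfl rfl)
      rcases lt_or_gt_of_ne hw.ne with c | c
      · exact lk 2 _ (by simp [A, a, c, Ne.symm h]) v (by simp [t]) (nX v hv) hp
      · have := l0 _ (by simpa [sw, c.le] using nX v hv) (lk 2 _ (by simp [A, sw, a, c, Ne.symm h])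
          v (by simp [t, sw]) (nX v hv) (l0 _ (by simpa [c.le] using nX v hv) hp))
        convert this using 1
        refine Subtype.ext ?_
        cases b <;> cases e : σ.sig s(v, w) <;> simp [sw, e, Sym2.eq_swap (a := w)]
    have l3 : ∀ p : Flag G, p.1.1 = v → p ∈ K → sw σ 2 p ∈ K := fun p h hp => by
      by_cases a : p.1.2.1 = par v
      · refine ((parity (sw_inv σ 1) (sw_inv σ 2) (sw_ne σ 1) (sw_ne σ 2)
          (fun q => q.1.1 = v ∧ q ∈ K) p (fun q ⟨x, y⟩ => ⟨x, l1 q (x ▸ nX v hv) y⟩)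
          fun q x y ⟨z, w⟩ => ⟨z, l2 q z (fun e => ?_) w⟩).1 ⟨h, hp⟩).2
        by_cases e' : q.1.2.2 = p.1.2.2
        · exact x (Subtype.ext (Prod.ext (z.trans h.symm) (Prod.ext (e.trans a.symm) e')))
        · exact y (Subtype.ext (Prod.ext (z.trans h.symm) (Prod.ext (e.trans a.symm)
            (Bool.eq_not.2 e'))))
      · exact l2 p h a hp
    have l4 : ∀ w b b' h, (⟨(v, w, b), h⟩ : Flag G) ∈ K → (⟨(v, w, b'), h⟩ : Flag G) ∈ K :=
      fun w b b' h hp => by
        have := l3 _ rfl hp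
        cases b <;> cases b' <;> assumption
    have l5 : ∀ w b h, (⟨(v, w, b), h⟩ : Flag G) ∈ K → ∀ (m : ℕ) b' h',
        (⟨(v, ((σ.rot v).formPerm ^ m) w, b'), h'⟩ : Flag G) ∈ K := fun w b h hp m => by
      induction m with
      | zero => exact fun _ _ => l4 _ b _ _ hp
      | succ m ih =>
        simp only [pow_succ', Equiv.Perm.mul_apply]
        exact fun _ h' => l4 _ false _ _ (l1 _ (nX v hv) (ih true ((σ.mem _ _).1
          (List.mem_of_formPerm_apply_mem ((σ.mem _ _).2 h')))))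
    rintro ⟨⟨u, w, b⟩, hw⟩ hp ⟨⟨u', w', b'⟩, hw'⟩ (rfl : u = v) (rfl : u' = u)
    obtain ⟨m, e⟩ : ∃ m : ℕ, ((σ.rot u').formPerm ^ m) w = w' := (σ.nodup u').isCycleOn_formPerm
      |>.exists_pow_eq' (Set.toFinite _) ((σ.mem _ _).2 hw) ((σ.mem _ _).2 hw')
    subst e
    exact l5 _ _ _ hp _ _ _
  intro p hp q h h1 h2
  rcases h with h | h
  · exact key _ _ rfl h1 p hp q rfl h.symm
  · refine key _ _ rfl h2 (sw σ 0 ⟨(_, _, true), h⟩) (l0 _ ?_ (key _ _ rfl h1 p hp _ rfl rfl)) q
      rfl rfl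
    rcases max_choice p.1.1 q.1.1 with e | e <;> rw [e]
    exacts [nX _ h1, nX _ h2]

end Pool.Agent.MP_de21d3_co.H60
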