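import Pool.Agent.MP_de21d3_co.H60.Cut

/-!
Sweeping a connected subcubic multigraph of cycle rank at most `g`.
-/

set_option autoImplicit false

namespace Pool.Agent.MP_de21d3_co.H60

open Finset Function

lemma mem_out {Q : Type} [DecidableEq Q] [Fintype Q] {ρ : Q × Fin 3 → Q × Fin 3} {K : Finset Q}
    {d : Q × Fin 3} : d ∈ out ρ K ↔ d.1 ∈ K ∧ (ρ d).1 ∉ K := by simp [out]

lemma cubic : ∃ C : ℕ, ∀ (N Q : Type) [DecidableEq N] [Fintype N] [DecidableEq Q] [Fintype Q]
    (ρ : N × Fin 3 → N × Fin 3) (g : ℕ) (W : Finset N → Prop), Involutive ρ →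
    (∀ K : Finset N, K.Nonempty → K ≠ univ → ∃ d : N × Fin 3, d.1 ∈ K ∧ (ρ d).1 ∉ K) → W ∅ →
    (∀ A B, #(out ρ A) + #(out ρ B) ≤ 61 * g / 200 + (C + 15) → W A → W B → W (A ∪ B)) →
    ∀ p : N → Q, Surjective p → (∀ x, W {y | p y = x} ∧ #(out ρ {y | p y = x}) = 3) →
    #{d | p (ρ d).1 ≠ p d.1} ≤ 2 * Fintype.card Q + 2 * g → W univ := by
  obtain ⟨C, hC⟩ := sweep
  refine ⟨C, fun N Q _ _ _ _ ρ g W hρ hc h1 h2 p ps hπ he => ?_⟩
  have e : ∀ x : Q, out ρ {y | p y = x} ≃ Fin 3 := fun x => equivFinOfCardEq (hπ x).2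
  let E : Q × Fin 3 → N × Fin 3 := fun q => (e q.1).symm q.2
  have E1 : ∀ q, p (E q).1 = q.1 ∧ p (ρ (E q)).1 ≠ q.1 := fun q => by
    simpa only [mem_out, mem_filter, mem_univ, true_and] using ((e q.1).symm q.2).2
  have E2 : Injective E := fun ⟨x, i⟩ ⟨y, j⟩ h => by
    obtain rfl : x = y := (E1 (x, i)).1.symm.trans (h ▸ (E1 (y, j)).1)
    exact Prod.ext rfl ((e x).symm.injective (Subtype.ext h))
  have E3 : ∀ d, p (ρ d).1 ≠ p d.1 → ∃ q, E q = d := fun d h =>
    ⟨(p d.1, e (p d.1) ⟨d, by simpa [out] using h⟩), by simp [E]⟩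
  choose τ hτ using fun q => E3 (ρ (E q)) (by rw [hρ, (E1 q).1]; exact (E1 q).2.symm)
  have t1 : ∀ q, (τ q).1 = p (ρ (E q)).1 := fun q => by rw [← hτ, (E1 _).1]
  let L : Finset Q → Finset N := fun K => {z | p z ∈ K}
  have t2 : ∀ K, out ρ (L K) ⊆ (out τ K).image E := fun K d => by
    simp only [L, mem_out, mem_filter, mem_univ, true_and, mem_image]
    rintro ⟨a1, a2⟩
    obtain ⟨q, rfl⟩ := E3 d fun h => a2 (h ▸ a1)
    exact ⟨q, ⟨(E1 q).1 ▸ a1, t1 q ▸ a2⟩, rfl⟩
  have t3 : ∀ K, #(out ρ (L K)) ≤ #(out τ K) := fun K => (card_le_card (t2 K)).trans card_image_le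
  have t4 : ∀ K, #(out ρ (L K)) ≤ #K * 3 := fun K => (t3 K).trans
    ((card_le_card (t := K ×ˢ univ) fun d hd => mem_product.2 ⟨(mem_out.1 hd).1, mem_univ _⟩).trans
      (by simp))
  have l0 : W (L ∅) := by simpa [L]
  have t5 : ∀ K : Finset Q, #K ≤ 4 → W (L K) := fun K => by
    induction K using Finset.induction_on with
    | empty => exact fun _ => l0
    | insert x K a ih =>
      rw [card_insert_of_notMem a, show L (insert x K) = univ.filter (p · = x) ∪ L K by
        ext; simp [L]]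
      have := (hπ x).2
      have := t4 K
      exact fun h => h2 _ _ (by omega) (hπ x).1 (ih (by omega))
  have hn : Fintype.card (Q × Fin 3) ≤ #{d | p (ρ d).1 ≠ p d.1} :=
    card_le_card_of_injOn E (fun q _ => by simpa [(E1 q).1] using (E1 q).2) E2.injOn
  rw [Fintype.card_prod, Fintype.card_fin] at hn
  have hs := hC Q τ (fun q => E2 (by rw [hτ, hτ, hρ])) (fun q => t1 q ▸ (E1 q).2)
    fun K ⟨x, a1⟩ a2 => by
      obtain ⟨y, a3⟩ : ∃ y, y ∉ K := by simpa [eq_univ_iff_forall] using a2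
      obtain ⟨x, rfl⟩ := ps x
      obtain ⟨y, rfl⟩ := ps y
      obtain ⟨d, hd⟩ := hc (L K) ⟨x, by simpa [L]⟩ fun h => a3
        (by simpa [L] using eq_univ_iff_forall.1 h y)
      obtain ⟨q, a, -⟩ := mem_image.1 (t2 K (mem_out.2 hd))
      exact ⟨q, mem_out.1 a⟩
  have : ∀ K, Sw τ ((61 * Fintype.card Q + C) / 400) K →
      W (L K) ∧ #(out τ K) ≤ (61 * Fintype.card Q + C) / 400 := fun K h => by
    induction h with
    | nil => exact ⟨l0, by simp [out]⟩
    | step K K' a1 a2 a3 _ ih =>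
      refine ⟨?_, a3⟩
      rw [show L K = L K' ∪ L (K \ K') by
        ext z; simpa [L, or_and_left, em] using fun h : p z ∈ K' => a1 h]
      have := t4 (K \ K')
      have := (t3 _).trans ih.2
      exact h2 _ _ (by omega) ih.1 (t5 _ a2)
  simpa [L] using (this _ hs).1

theorem sweep_rank : ∃ C : ℕ, ∀ (N : Type) [DecidableEq N] [Fintype N]
    (ρ : N × Fin 3 → N × Fin 3) (g : ℕ) (W : Finset N → Prop), Involutive ρ →
    (∀ K : Finset N, K.Nonempty → K ≠ univ → ∃ d : N × Fin 3, d.1 ∈ K ∧ (ρ d).1 ∉ K) →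
    #{d | (ρ d).1 ≠ d.1} + 2 ≤ 2 * Fintype.card N + 2 * g → (∀ K, #K ≤ 1 → W K) →
    (∀ A B, #(out ρ A) + #(out ρ B) ≤ 61 * g / 200 + C → W A → W B → W (A ∪ B)) → W univ := by
  obtain ⟨C, hC⟩ := cubic
  refine ⟨C + 15, fun N _ _ ρ g W hρ hc hg h1 h2 => ?_⟩
  suffices H : ∀ n (π : N → N), #(univ.image π) = n →
      (∀ x, W {y | π y = x} ∧ #(out ρ {y | π y = x}) ≤ 3) →
      #{d | π (ρ d).1 ≠ π d.1} + 2 ≤ 2 * n + 2 * g → W univ by
    refine H _ id (by simp) (fun x => ⟨h1 _ (by simp [filter_eq']), ?_⟩) hg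
    refine (card_le_card (t := {x} ×ˢ univ) fun d hd => ?_).trans (by simp)
    exact mem_product.2 ⟨by simpa using (mem_out.1 hd).1, mem_univ _⟩
  intro n
  induction n using Nat.strong_induction_on with
  | _ n ih =>
  intro π hn hπ he
  by_cases hx : ∃ x ∈ univ.image π, #(out ρ {y | π y = x}) ≤ 2
  · obtain ⟨x, x1, x2⟩ := hx
    by_cases hu : ({y | π y = x} : Finset N) = univ
    · exact hu ▸ (hπ x).1
    obtain ⟨d, d1, d2⟩ := hc _ (filter_nonempty_iff.2 (mem_image.1 x1)) hu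
    simp only [mem_filter, mem_univ, true_and] at d1 d2
    obtain ⟨y, hy⟩ : ∃ y, π (ρ d).1 = y := ⟨_, rfl⟩
    rw [hy] at d2
    have n0 := card_pos.2 ⟨x, x1⟩
    refine ih (n - 1) (by omega) (fun z => if π z = x then y else π z) ?_ (fun z => ?_) ?_
    · rw [← hn, ← card_erase_of_mem x1]
      congr 1
      ext z
      simp only [mem_image, mem_univ, true_and, mem_erase]
      constructor
      · rintro ⟨a, rfl⟩
        split_ifs with h
        exacts [⟨d2, _, hy⟩, ⟨h, a, rfl⟩]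
      · rintro ⟨h, a, rfl⟩
        exact ⟨a, if_neg h⟩
    · by_cases hz : z = y
      · rw [show (univ.filter fun a => (if π a = x then y else π a) = z) = univ.filter (π · = x) ∪
          univ.filter (π · = y) by ext a; by_cases h : π a = x <;> simp [h, hz]]
        have := (hπ y).2
        refine ⟨h2 _ _ (by omega) (hπ x).1 (hπ y).1, ?_⟩
        have a1 : d ∈ out ρ {a | π a = x} := by simp [out, d1, hy, d2]
        have a2 : ρ d ∈ out ρ {a | π a = y} := by simp [out, hρ d, d1, hy, Ne.symm d2]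
        have a3 := card_erase_add_one a1
        have a4 := card_erase_add_one a2
        refine (card_le_card (t := (out ρ {a | π a = x}).erase d ∪
          (out ρ {a | π a = y}).erase (ρ d)) fun e => ?_).trans ((card_union_le _ _).trans (by omega))
        simp only [mem_out, mem_union, mem_filter, mem_univ, true_and, mem_erase, not_or]
        rintro ⟨h | h, h3, h4⟩
        · exact Or.inl ⟨fun q => h4 (q ▸ hy), h, h3⟩
        · exact Or.inr ⟨fun q => h3 (by rw [q, hρ, d1]), h, h4⟩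
      by_cases hz' : z = x
      · rw [show ({a | (if π a = x then y else π a) = z} : Finset N) = ∅ by
          ext a; by_cases h : π a = x <;> simp [h, hz', d2]]
        exact ⟨h1 _ (by simp), by simp [out]⟩
      · rw [show (univ.filter fun a => (if π a = x then y else π a) = z) = univ.filter (π · = z) by
          ext a; by_cases h : π a = x <;> simp [h, Ne.symm hz, Ne.symm hz']]
        exact hπ z
    · have a1 : d ∈ ({d | π (ρ d).1 ≠ π d.1} : Finset _) := by simp [d1, hy, d2]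
      have a2 : ρ d ∈ ({d | π (ρ d).1 ≠ π d.1} : Finset _).erase d := by
        simp only [mem_erase, mem_filter, mem_univ, true_and, hρ d, d1, hy]
        exact ⟨fun q => d2 (by rw [← hy, q, d1]), Ne.symm d2⟩
      have a3 := card_erase_add_one a1
      have a4 := card_erase_add_one a2
      refine le_trans (Nat.add_le_add_right (card_le_card (t :=
        (({d | π (ρ d).1 ≠ π d.1} : Finset _).erase d).erase (ρ d)) fun e => ?_) 2) (by omega)
      simp only [mem_erase, mem_filter, mem_univ, true_and]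
      refine fun h => ⟨fun q => h ?_, fun q => h ?_, fun q => h (by rw [q])⟩
      · simp [q, hρ d, d1, hy]
      · simp [q, d1, hy]
  push Not at hx
  refine hC N (univ.image π) ρ g W hρ hc (h1 _ (by simp)) h2
    (fun z => ⟨π z, mem_image_of_mem _ (mem_univ z)⟩) (fun ⟨x, h⟩ => by simpa using h)
    (fun ⟨x, h⟩ => ?_) (by simp only [Fintype.card_coe, ne_eq, Subtype.mk.injEq] at he ⊢; omega)
  simpa only [Subtype.mk.injEq] using ⟨(hπ x).1, le_antisymm (hπ x).2 (hx x h)⟩

end Pool.Agent.MP_de21d3_co.H60
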